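import Pool.Agent.K4H47.IR.Lin

/-!
# Isolated returns of `Ω`-stable diffeomorphisms
-/

set_option autoImplicit false
set_option linter.unusedSectionVars false

open scoped Manifold ContDiff Topology
open Filter Set Metric

universe u

namespace Pool.Agent.K4H47.IR

open Pool.Agent.H718R2.G Pool.Agent.W564.SC Pool.Agent.TH80.OMS Pool.Agent.Y504.CO
open Pool.Agent.K4H47.RH (DN DE IsHypMap Tc Sc ST TS chart_md DN_iter_succ DN_trans DN_id_near
  push_id_near nbhd_uniform near_hyp star_of_stable DN_push DN_iter_zero DN_iter_inj DN_iter_add)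

variable {n : ℕ} {N : Type u} [TopologicalSpace N] [T2Space N] [CompactSpace N]
    [ChartedSpace (V n) N] [IsManifold (𝓡 n) ∞ N]

/-- a push which is the identity near the intermediate iterates of `x` -/
theorem ret_push {r : ℕ∞} (hr : 1 ≤ r) (G Θ : DiffM n N r) {x : N} {j : ℕ} (hj : 1 ≤ j)
    (h : ∀ i, 1 ≤ i → i < j → ∀ᶠ y in 𝓝 (G^[i] x), Θ y = y) :
    (∀ i < j, (G.trans Θ)^[i] x = G^[i] x) ∧ (G.trans Θ)^[j] x = Θ (G^[j] x) ∧
    DN n ((G.trans Θ)^[j]) x = (DN n Θ (G^[j] x)).comp (DN n (G^[j]) x) := by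
  have h1 : ∀ i < j, (G.trans Θ)^[i] x = G^[i] x := by
    intro i
    induction i with
    | zero => intro _; rfl
    | succ i ih =>
      intro hi
      rw [Function.iterate_succ_apply', Function.iterate_succ_apply', ih (by omega)]
      have h2 := (h (i + 1) (by omega) hi).self_of_nhds
      rw [Function.iterate_succ_apply'] at h2
      exact h2
  have h2 : ∀ i < j, DN n ((G.trans Θ)^[i]) x = DN n (G^[i]) x := by
    intro i
    induction i with
    | zero => intro _; rw [DN_iter_zero, DN_iter_zero]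
    | succ i ih =>
      intro hi
      rw [DN_iter_succ hr, DN_iter_succ hr, ih (by omega), h1 i (by omega), DN_trans hr]
      have h3 := h (i + 1) (by omega) hi
      rw [Function.iterate_succ_apply'] at h3
      rw [DN_id_near h3, ContinuousLinearMap.id_comp]
  obtain ⟨j, rfl⟩ : ∃ l, j = l + 1 := ⟨j - 1, by omega⟩
  refine ⟨h1, ?_, ?_⟩
  · rw [Function.iterate_succ_apply', Function.iterate_succ_apply', h1 j (by omega)]
    rfl
  · rw [DN_iter_succ hr, DN_iter_succ hr, h2 j (by omega), h1 j (by omega), DN_trans hr,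
      Function.iterate_succ_apply' G j x]
    rfl

/-- The derivative of the return map in the chart. -/
theorem ret_fderiv {r : ℕ∞} (hr : 1 ≤ r) (G : DiffM n N r) {χ : OpenPartialHomeomorph N (V n)}
    (hχ : χ ∈ IsManifold.maximalAtlas (𝓡 n) ∞ N) {x : N} (hx : x ∈ χ.source) (j : ℕ)
    (hjx : G^[j] x ∈ χ.source) :
    fderiv ℝ (fun v => χ (G^[j] (χ.symm v))) (χ x) =
      (Tc χ (G^[j] x)).comp ((DN n (G^[j]) x).comp (Sc χ (χ x))) := by
  have hmd := chart_md hχ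
  have h1 : HasMFDerivAt (𝓡 n) (𝓡 n) χ.symm (χ x) (Sc χ (χ x)) :=
    (hmd.mdifferentiableAt_symm (χ.map_source hx)).hasMFDerivAt
  have h2 : HasMFDerivAt (𝓡 n) (𝓡 n) (G^[j]) (χ.symm (χ x)) (DN n (G^[j]) x) := by
    rw [χ.left_inv hx]
    exact (Pool.Agent.K4H47.RH.iter_md hr G j x).hasMFDerivAt
  have h3 := HasMFDerivAt.comp (χ x) h2 h1
  have h4 : HasMFDerivAt (𝓡 n) (𝓡 n) χ ((G^[j] ∘ χ.symm) (χ x)) (Tc χ (G^[j] x)) := by
    have e0 : (G^[j] ∘ χ.symm) (χ x) = G^[j] x := by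
      rw [Function.comp_apply, χ.left_inv hx]
    rw [e0]
    exact (hmd.mdifferentiableAt hjx).hasMFDerivAt
  have h5 := HasMFDerivAt.comp (χ x) h4 h3
  have h6 : HasFDerivAt (fun v => χ (G^[j] (χ.symm v)))
      ((Tc χ (G^[j] x)).comp ((DN n (G^[j]) x).comp (Sc χ (χ x)))) (χ x) := h5.hasFDerivAt
  exact h6.fderiv

theorem Tc_inj {χ : OpenPartialHomeomorph N (V n)}
    (hχ : χ ∈ IsManifold.maximalAtlas (𝓡 n) ∞ N) {x : N} (hx : x ∈ χ.source) :
    Function.Injective (Tc χ x) := by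
  have h := ST hχ hx
  intro a b hab
  have h1 := fun w : V n => congrArg (fun A : V n →L[ℝ] V n => A w) h
  simp only [ContinuousLinearMap.comp_apply, ContinuousLinearMap.id_apply] at h1
  rw [← h1 a, ← h1 b, hab]

theorem Sc_inj {χ : OpenPartialHomeomorph N (V n)}
    (hχ : χ ∈ IsManifold.maximalAtlas (𝓡 n) ∞ N) {x : N} (hx : x ∈ χ.source) :
    Function.Injective (Sc χ (χ x)) := by
  have h := TS hχ hx
  intro a b hab
  have h1 := fun w : V n => congrArg (fun A : V n →L[ℝ] V n => A w) h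
  simp only [ContinuousLinearMap.comp_apply, ContinuousLinearMap.id_apply] at h1
  rw [← h1 a, ← h1 b, hab]

/-- `G^j x` is `δ`-close to `x` in the chart, and the iterates in between stay `ρ` away from `x`. -/
structure IsoRet (G : N → N) (χ : OpenPartialHomeomorph N (V n)) (x : N) (j : ℕ) (ρ δ : ℝ) :
    Prop where
  mem : x ∈ χ.source ∧ ‖χ x‖ < 1 / 4
  pos : 1 ≤ j
  iso : ∀ i, 1 ≤ i → i < j → G^[i] x ∈ χ.source → ρ ≤ ‖χ (G^[i] x) - χ x‖
  ret : G^[j] x ∈ χ.source ∧ ‖χ (G^[j] x) - χ x‖ ≤ δ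

theorem main {r : ℕ∞} (hr : 1 ≤ r) (F : DiffM n N r) (hF : OmegaStable n N r F)
    (χ : OpenPartialHomeomorph N (V n)) (z : N) (hχ : GoodChart n N χ z) :
    ∃ U : Set (DiffM n N r), IsOpen[strongTop n N r] U ∧ F ∈ U ∧ ∃ k : ℕ, 1 ≤ k ∧
      (k : ℕ∞) ≤ r ∧ ∃ c : ℝ, 0 < c ∧ c ≤ 1 ∧ ∀ G ∈ U, ∀ (x : N) (j : ℕ) (ρ : ℝ), 0 < ρ → ρ ≤ 1 →
        IsoRet G χ x j ρ (c * ρ ^ k) →
        (∃ y ∈ χ.source, G^[j] y = y ∧ ‖χ y - χ x‖ < ρ) ∧
        RobHyp (fderiv ℝ (fun v => χ (G^[j] (χ.symm v))) (χ x)) (c * ρ ^ (k - 1)) := by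
  obtain ⟨W₁, hW₁, hFW₁, hfin⟩ := finite_per hr hF
  obtain ⟨W₂, hW₂, hFW₂, hhyp⟩ := near_hyp hr (star_of_stable hr hF)
  obtain ⟨W₀, hW₀, hFW₀, hconj⟩ := hF
  letI : TopologicalSpace (DiffM n N r) := strongTop n N r
  have hW : IsOpen (W₀ ∩ (W₁ ∩ W₂)) := hW₀.inter (IsOpen.inter hW₁ hW₂)
  set W := W₀ ∩ (W₁ ∩ W₂) with hWdef
  have hFW : F ∈ W := ⟨hFW₀, hFW₁, hFW₂⟩
  obtain ⟨U₁, hU₁, hFU₁, k₁, hk₁, hkr₁, κ₁, hκ₁, h₁⟩ := nbhd_uniform hr F χ z hχ W hW hFW
  have hUW : IsOpen (U₁ ∩ W) := IsOpen.inter hU₁ hW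
  obtain ⟨U₂, hU₂, hFU₂, k₂, hk₂, hkr₂, κ₂, hκ₂, h₂⟩ :=
    nbhd_uniform hr F χ z hχ (U₁ ∩ W) hUW ⟨hFU₁, hFW⟩
  set k := max k₁ k₂ with hk
  have hk1 : 1 ≤ k := le_max_of_le_left hk₁
  have hkr : (k : ℕ∞) ≤ r := by
    rcases max_choice k₁ k₂ with hm | hm <;> rw [hk, hm] <;> assumption
  set κ := min (min κ₁ κ₂) (1 / 2) with hκ
  have hκ0 : 0 < κ := lt_min (lt_min hκ₁ hκ₂) (by norm_num)
  have hκ1 : κ ≤ κ₁ := (min_le_left _ _).trans (min_le_left _ _)
  have hκ2 : κ ≤ κ₂ := (min_le_left _ _).trans (min_le_right _ _)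
  have hκh : κ ≤ 1 / 2 := min_le_right _ _
  obtain ⟨C₁, hC₁, hcf⟩ := cfield n k
  obtain ⟨C₂, hC₂, hlf⟩ := Pool.Agent.K4H47.RH.field n k hk1
  set c := min (1 / 16) (min (κ / C₁) (κ / C₂)) with hc
  have hc0 : 0 < c := lt_min (by norm_num) (lt_min (by positivity) (by positivity))
  have hc16 : c ≤ 1 / 16 := min_le_left _ _
  have hcC₁ : C₁ * c ≤ κ := by
    have h1 : c ≤ κ / C₁ := (min_le_right _ _).trans (min_le_left _ _)
    rw [le_div_iff₀ hC₁] at h1
    linarith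
  have hcC₂ : C₂ * c ≤ κ := by
    have h1 : c ≤ κ / C₂ := (min_le_right _ _).trans (min_le_right _ _)
    rw [le_div_iff₀ hC₂] at h1
    linarith
  refine ⟨U₂ ∩ W, IsOpen.inter hU₂ hW, ⟨hFU₂, hFW⟩, k, hk1, hkr, c, hc0, by linarith, ?_⟩
  intro G hG x j ρ hρ0 hρ1 hx
  obtain ⟨⟨hxs, hxn⟩, hj, hiso, hjs, hjn⟩ := hx
  set v := χ x with hv
  have hρk : ρ ^ k ≤ ρ := by
    obtain ⟨l, hl⟩ : ∃ l, k = l + 1 := ⟨k - 1, by omega⟩
    rw [hl, pow_succ]
    have := pow_le_one₀ hρ0.le hρ1 (n := l)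
    nlinarith
  have hjn' : ‖χ (G^[j] x) - v‖ ≤ ρ / 16 := by
    refine hjn.trans ?_
    have := pow_pos hρ0 k
    nlinarith
  -- the first push
  obtain ⟨u₁, hu₁, hu₁n, hu₁f⟩ := hcf v (v - χ (G^[j] x)) ρ c hc0.le hρ0 hρ1 hxn.le
    (by rw [norm_sub_rev]; exact hjn)
  have hu₁' : Small n k κ u₁ := Pool.Agent.W923.SC.small_mono hu₁ le_rfl hcC₁
  obtain ⟨Θ₁, hΘ₁⟩ := Pool.Agent.W428.SC.push n N r χ z hχ u₁
    (Pool.Agent.W923.SC.small_mono hu₁' hk1 hκh)
  have hG'2 : G.trans Θ₁ ∈ U₁ ∩ W := h₂ G hG.1 u₁ Θ₁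
    (Pool.Agent.W923.SC.small_mono hu₁' (le_max_right _ _) hκ2) hΘ₁
  have hclose : Θ₁ (G^[j] x) = x := by
    obtain ⟨a, b⟩ := hΘ₁.1 _ hjs
    rw [hu₁n _ (by linarith), add_sub_cancel] at b
    exact χ.injOn a hxs b
  have hid₁ : ∀ i, 1 ≤ i → i < j → ∀ᶠ y in 𝓝 (G^[i] x), Θ₁ y = y := by
    intro i hi hij
    refine push_id_near hχ hΘ₁ hu₁.supp fun hys => ?_
    have h3 : ρ / 4 < ‖χ (G^[i] x) - v‖ := by
      have := hiso i hi hij hys
      linarith
    have h4 : Continuous fun w : V n => ‖w - v‖ := by fun_prop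
    filter_upwards [h4.continuousAt.eventually (lt_mem_nhds h3)] with w hw
    exact hu₁f w (le_of_lt hw)
  obtain ⟨p1, p2, p3⟩ := ret_push hr G Θ₁ hj hid₁
  rw [hclose] at p2
  constructor
  · -- the periodic point
    by_contra hno
    push Not at hno
    have hfar : ∀ y, G^[j] y = y → Θ₁ y = y := by
      intro y hy
      by_cases hys : y ∈ χ.source
      · obtain ⟨a, b⟩ := hΘ₁.1 y hys
        have h3 := hno y hys hy
        rw [hu₁f _ (by linarith), add_zero] at b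
        exact χ.injOn a hys b
      · exact hΘ₁.2 y hys
    have hfix : ∀ y, G^[j] y = y → ∀ i, (G.trans Θ₁)^[i] y = G^[i] y := by
      intro y hy i
      induction i with
      | zero => rfl
      | succ i ih =>
        rw [Function.iterate_succ_apply', Function.iterate_succ_apply', ih]
        show Θ₁ (G (G^[i] y)) = G (G^[i] y)
        refine hfar _ ?_
        rw [← Function.iterate_succ_apply' G i y, ← Function.iterate_add_apply, add_comm,
          Function.iterate_add_apply, hy]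
    have hsub : {y | G^[j] y = y} ⊂ {y | (G.trans Θ₁)^[j] y = y} := by
      refine ⟨fun y hy => ?_, fun hcon => ?_⟩
      · show (G.trans Θ₁)^[j] y = y
        rw [hfix y hy j]
        exact hy
      · have h3 : G^[j] x = x := hcon p2
        have h4 := hno x hxs h3
        rw [← hv, sub_self, norm_zero] at h4
        linarith
    have hf2 := hfin _ hG'2.2.2.1 j hj
    have h3 := Set.ncard_lt_ncard hsub hf2
    have h4 := ncard_conj F.continuous G.continuous (hconj G hG.2.1) hj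
    have h5 := ncard_conj F.continuous (G.trans Θ₁).continuous (hconj _ hG'2.2.1) hj
    omega
  · -- hyperbolicity
    intro B hB
    have hder₁ : HasFDerivAt u₁ (0 : V n →L[ℝ] V n) (χ (G^[j] x)) := by
      have h4 : Continuous fun w : V n => ‖w - v‖ := by fun_prop
      have h5 : u₁ =ᶠ[𝓝 (χ (G^[j] x))] fun _ => v - χ (G^[j] x) := by
        have h6 : ‖χ (G^[j] x) - v‖ < ρ / 8 := by linarith
        filter_upwards [h4.continuousAt.eventually (gt_mem_nhds h6)] with w hw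
        exact hu₁n w (le_of_lt hw)
      exact (hasFDerivAt_const _ _).congr_of_eventuallyEq h5
    have hD₁ := DN_push' hχ.mem hΘ₁.1 hjs hder₁
    rw [hclose, add_zero, ContinuousLinearMap.id_comp] at hD₁
    -- the second push
    obtain ⟨u₂, hu₂, hu₂n, hu₂f⟩ := hlf {v} (fun _ => ρ) (fun _ => B) c hc0.le
      (fun _ _ => ⟨hρ0, hρ1⟩) (fun w hw => by rw [Finset.mem_singleton.1 hw]; exact hxn.le)
      (fun a ha b hb hab => absurd (by rw [Finset.mem_singleton.1 ha, Finset.mem_singleton.1 hb])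
        hab) (fun _ _ => hB)
    have hu₂' : Small n k κ u₂ := Pool.Agent.W923.SC.small_mono hu₂ le_rfl hcC₂
    obtain ⟨Θ₂, hΘ₂⟩ := Pool.Agent.W428.SC.push n N r χ z hχ u₂
      (Pool.Agent.W923.SC.small_mono hu₂' hk1 hκh)
    have hG''2 : (G.trans Θ₁).trans Θ₂ ∈ W := h₁ _ hG'2.1 u₂ Θ₂
      (Pool.Agent.W923.SC.small_mono hu₂' (le_max_left _ _) hκ1) hΘ₂
    have hv0 : u₂ v = 0 := by
      rw [hu₂n v (Finset.mem_singleton_self v) v (by rw [sub_self, norm_zero]; positivity),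
        sub_self, map_zero]
    have hfix₂ : Θ₂ x = x := by
      obtain ⟨a, b⟩ := hΘ₂.1 x hxs
      rw [← hv, hv0, add_zero] at b
      exact χ.injOn a hxs b
    have hid₂ : ∀ i, 1 ≤ i → i < j → ∀ᶠ y in 𝓝 ((G.trans Θ₁)^[i] x), Θ₂ y = y := by
      intro i hi hij
      rw [p1 i hij]
      refine push_id_near hχ hΘ₂ hu₂.supp fun hys => ?_
      have h3 : ρ / 4 < ‖χ (G^[i] x) - v‖ := by
        have := hiso i hi hij hys
        linarith
      have h4 : Continuous fun w : V n => ‖w - v‖ := by fun_prop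
      filter_upwards [h4.continuousAt.eventually (lt_mem_nhds h3)] with w hw
      exact hu₂f w fun w' hw' => by
        rw [Finset.mem_singleton.1 hw']
        exact le_of_lt hw
    obtain ⟨q1, q2, q3⟩ := ret_push hr (G.trans Θ₁) Θ₂ hj hid₂
    rw [p2, hfix₂] at q2
    have hder₂ : HasFDerivAt u₂ B (χ x) := by
      have h4 : Continuous fun w : V n => ‖w - v‖ := by fun_prop
      have h5 : u₂ =ᶠ[𝓝 (χ x)] fun w => B (w - v) := by
        have h6 : ‖χ x - v‖ < ρ / 8 := by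
          rw [← hv, sub_self, norm_zero]
          positivity
        filter_upwards [h4.continuousAt.eventually (gt_mem_nhds h6)] with w hw
        exact hu₂n v (Finset.mem_singleton_self v) w (le_of_lt hw)
      have h7 : HasFDerivAt (fun w => B (w - v)) B (χ x) :=
        B.hasFDerivAt.comp (χ x) ((hasFDerivAt_id (χ x)).sub_const v)
      exact h7.congr_of_eventuallyEq h5
    have hD₂ := DN_push hχ.mem hΘ₂.1 hxs (by rw [← hv]; exact hv0) hder₂
    have hH := hhyp _ hG''2.2.2 x j hj q2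
    have hconjH := hyp_conj (TS hχ.mem hxs) (ST hχ.mem hxs) hH
    have hfinal : (Tc χ x).comp ((DN n (((G.trans Θ₁).trans Θ₂)^[j]) x).comp (Sc χ (χ x))) =
        (ContinuousLinearMap.id ℝ (V n) + B).comp
          (fderiv ℝ (fun v => χ (G^[j] (χ.symm v))) (χ x)) := by
      rw [ret_fderiv hr G hχ.mem hxs j hjs, q3, p2, hD₂, p3, hD₁]
      have hTS := fun w : V n => congrArg (fun A : V n →L[ℝ] V n => A w) (TS hχ.mem hxs)
      simp only [ContinuousLinearMap.comp_apply, ContinuousLinearMap.id_apply] at hTS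
      ext1 w
      simp only [ContinuousLinearMap.comp_apply, hTS]
    rw [hfinal] at hconjH
    exact hconjH

theorem ret_inj {r : ℕ∞} (hr : 1 ≤ r) (G : DiffM n N r) {χ : OpenPartialHomeomorph N (V n)}
    (hχ : χ ∈ IsManifold.maximalAtlas (𝓡 n) ∞ N) {x : N} (hx : x ∈ χ.source) (j : ℕ)
    (hjx : G^[j] x ∈ χ.source) :
    Function.Injective (fderiv ℝ (fun v => χ (G^[j] (χ.symm v))) (χ x)) := by
  rw [ret_fderiv hr G hχ hx j hjx]
  exact (Tc_inj hχ hjx).comp ((DN_iter_inj hr G j x).comp (Sc_inj hχ hx))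

end Pool.Agent.K4H47.IR
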