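import Mathlib
import Pool.Agent.K4H49.IR.Spec

/-! [STAR] (helper47 for helper49): the number of stars with `n` leaves through a vertex. -/

set_option autoImplicit false

open Finset

namespace Pool.Agent.K4H47.IR

open Pool.Agent.K4H49.IR

variable {V : Type} [Fintype V] [DecidableEq V] (G : SimpleGraph V) [DecidableRel G.Adj]

/-- the star with centre `c` and leaves `S` -/
def starSub (c : V) (S : Finset V) : G.Subgraph where
  verts := {v | v = c ∨ v ∈ S}
  Adj a b := G.Adj a b ∧ ((a = c ∧ b ∈ S) ∨ (b = c ∧ a ∈ S))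
  adj_sub := fun h => h.1
  edge_vert := by
    rintro a b ⟨_, ⟨rfl, _⟩ | ⟨_, h⟩⟩
    · exact Or.inl rfl
    · exact Or.inr h
  symm := ⟨fun a b h => ⟨h.1.symm, h.2.symm⟩⟩

theorem exists_of_iso {n : ℕ} {H : G.Subgraph} (e : Pool.Agent.K4H49.IR.star n ≃g H.coe) :
    ∃ c S, S ∈ (G.neighborFinset c).powersetCard n ∧ H = starSub G c S := by
  classical
  let c : V := (e (Sum.inl 0)).1
  let l : Fin n → V := fun i => (e (Sum.inr i)).1
  have hadj : ∀ i, H.Adj c (l i) := by
    intro i
    have h1 : (Pool.Agent.K4H49.IR.star n).Adj (Sum.inl 0) (Sum.inr i) := by simp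
    exact (e.map_rel_iff.2 h1 : H.coe.Adj _ _)
  have hinj : Function.Injective l := by
    intro i j h
    have h1 : e (Sum.inr i) = e (Sum.inr j) := Subtype.ext h
    exact Sum.inr.inj (e.injective h1)
  refine ⟨c, univ.image l, ?_, ?_⟩
  · rw [mem_powersetCard]
    constructor
    · intro v hv
      obtain ⟨i, -, rfl⟩ := mem_image.1 hv
      rw [SimpleGraph.mem_neighborFinset]
      exact H.adj_sub (hadj i)
    · rw [card_image_of_injective _ hinj, card_univ, Fintype.card_fin]
  · refine SimpleGraph.Subgraph.ext ?_ ?_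
    · ext v
      constructor
      · intro hv
        obtain ⟨w, hw⟩ := e.surjective ⟨v, hv⟩
        rcases w with w | w
        · left
          have : w = 0 := Subsingleton.elim _ _
          subst this
          exact (congrArg Subtype.val hw).symm
        · right
          exact mem_image.2 ⟨w, mem_univ _, congrArg Subtype.val hw⟩
      · rintro (rfl | hv)
        · exact (e (Sum.inl 0)).2
        · obtain ⟨i, -, rfl⟩ := mem_image.1 hv
          exact (e (Sum.inr i)).2
    · ext a b
      constructor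
      · intro h
        refine ⟨H.adj_sub h, ?_⟩
        obtain ⟨wa, hwa⟩ := e.surjective ⟨a, H.edge_vert h⟩
        obtain ⟨wb, hwb⟩ := e.surjective ⟨b, H.edge_vert h.symm⟩
        have h1 : (Pool.Agent.K4H49.IR.star n).Adj wa wb := by
          rw [← e.map_rel_iff]
          show H.coe.Adj (e wa) (e wb)
          rw [hwa, hwb]
          exact h
        rcases wa with wa | wa <;> rcases wb with wb | wb
        · simp at h1
        · left
          have : wa = 0 := Subsingleton.elim _ _
          subst this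
          exact ⟨(congrArg Subtype.val hwa).symm,
            mem_image.2 ⟨wb, mem_univ _, congrArg Subtype.val hwb⟩⟩
        · right
          have : wb = 0 := Subsingleton.elim _ _
          subst this
          exact ⟨(congrArg Subtype.val hwb).symm,
            mem_image.2 ⟨wa, mem_univ _, congrArg Subtype.val hwa⟩⟩
        · simp at h1
      · rintro ⟨-, ⟨rfl, hb⟩ | ⟨rfl, ha⟩⟩
        · obtain ⟨i, -, rfl⟩ := mem_image.1 hb
          exact hadj i
        · obtain ⟨i, -, rfl⟩ := mem_image.1 ha
          exact (hadj i).symm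

theorem iso_starSub {n : ℕ} {c : V} {S : Finset V}
    (hS : S ∈ (G.neighborFinset c).powersetCard n) :
    Nonempty (Pool.Agent.K4H49.IR.star n ≃g (starSub G c S).coe) := by
  classical
  rw [mem_powersetCard] at hS
  obtain ⟨hsub, hcard⟩ := hS
  have hadj : ∀ v ∈ S, G.Adj c v := fun v hv => by
    have := hsub hv
    rwa [SimpleGraph.mem_neighborFinset] at this
  let f : S ≃ Fin n := S.equivFinOfCardEq hcard
  let g : Fin 1 ⊕ Fin n → (starSub G c S).verts := fun w => match w with
    | .inl _ => ⟨c, Or.inl rfl⟩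
    | .inr i => ⟨(f.symm i).1, Or.inr (f.symm i).2⟩
  have hg : Function.Bijective g := by
    constructor
    · rintro (a | a) (b | b) h
      · congr 1
        exact Subsingleton.elim _ _
      · exfalso
        have h1 : c = (f.symm b).1 := congrArg Subtype.val h
        have h2 := hadj _ (f.symm b).2
        rw [← h1] at h2
        exact G.loopless.irrefl _ h2
      · exfalso
        have h1 : (f.symm a).1 = c := congrArg Subtype.val h
        have h2 := hadj _ (f.symm a).2
        rw [h1] at h2
        exact G.loopless.irrefl _ h2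
      · have h1 : (f.symm a).1 = (f.symm b).1 :=
          congrArg (fun z : (starSub G c S).verts => z.1) h
        congr 1
        exact f.symm.injective (Subtype.ext h1)
    · rintro ⟨v, rfl | hv⟩
      · exact ⟨Sum.inl 0, rfl⟩
      · refine ⟨Sum.inr (f ⟨v, hv⟩), ?_⟩
        apply Subtype.ext
        show (f.symm (f ⟨v, hv⟩)).1 = v
        rw [f.symm_apply_apply]
  refine ⟨⟨Equiv.ofBijective g hg, ?_⟩⟩
  intro a b
  show (starSub G c S).Adj (g a).1 (g b).1 ↔ (Pool.Agent.K4H49.IR.star n).Adj a b
  rcases a with a | a <;> rcases b with b | b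
  · show (G.Adj c c ∧ _) ↔ _
    simp
  · show (G.Adj c (f.symm b).1 ∧ ((c = c ∧ (f.symm b).1 ∈ S) ∨ _)) ↔ _
    have h1 := hadj _ (f.symm b).2
    have h2 := (f.symm b).2
    simp [h1, h2]
  · show (G.Adj (f.symm a).1 c ∧ (_ ∨ (c = c ∧ (f.symm a).1 ∈ S))) ↔ _
    have h1 := (hadj _ (f.symm a).2).symm
    have h2 := (f.symm a).2
    simp [h1, h2]
  · show (G.Adj (f.symm a).1 (f.symm b).1 ∧ (((f.symm a).1 = c ∧ _) ∨ ((f.symm b).1 = c ∧ _))) ↔ _
    have h1 : (f.symm a).1 ≠ c := fun h => by
      have := hadj _ (f.symm a).2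
      rw [h] at this
      exact G.loopless.irrefl _ this
    have h2 : (f.symm b).1 ≠ c := fun h => by
      have := hadj _ (f.symm b).2
      rw [h] at this
      exact G.loopless.irrefl _ this
    simp [h1, h2]

theorem starSub_inj {n : ℕ} (hn : 2 ≤ n) {c c' : V} {S S' : Finset V}
    (hS : S ∈ (G.neighborFinset c).powersetCard n)
    (hS' : S' ∈ (G.neighborFinset c').powersetCard n)
    (h : starSub G c S = starSub G c' S') : c = c' ∧ S = S' := by
  rw [mem_powersetCard] at hS hS'
  have hadj : ∀ v ∈ S, G.Adj c v := fun v hv => by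
    have := hS.1 hv
    rwa [SimpleGraph.mem_neighborFinset] at this
  have hadj' : ∀ v ∈ S', G.Adj c' v := fun v hv => by
    have := hS'.1 hv
    rwa [SimpleGraph.mem_neighborFinset] at this
  have hA : ∀ a b, (starSub G c S).Adj a b ↔ (starSub G c' S').Adj a b := by
    intro a b; rw [h]
  have hc : c = c' := by
    by_contra hne
    have h1 : 1 < S.card := by omega
    obtain ⟨s, hs, hsc⟩ := exists_mem_ne h1 c'
    obtain ⟨-, ⟨h2, -⟩ | ⟨h2, -⟩⟩ := (hA c s).1 ⟨hadj s hs, Or.inl ⟨rfl, hs⟩⟩
    · exact hne h2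
    · exact hsc h2
  subst hc
  refine ⟨rfl, ?_⟩
  ext v
  constructor
  · intro hv
    obtain ⟨-, ⟨-, h2⟩ | ⟨h2, h3⟩⟩ := (hA c v).1 ⟨hadj v hv, Or.inl ⟨rfl, hv⟩⟩
    · exact h2
    · exact absurd (hadj v hv) (by rw [h2]; exact G.loopless.irrefl _)
  · intro hv
    obtain ⟨-, ⟨-, h2⟩ | ⟨h2, h3⟩⟩ := (hA c v).2 ⟨hadj' v hv, Or.inl ⟨rfl, hv⟩⟩
    · exact h2
    · exact absurd (hadj' v hv) (by rw [h2]; exact G.loopless.irrefl _)

omit [Fintype V] in
theorem card_filter_mem {n : ℕ} (hn : 1 ≤ n) (A : Finset V) {x : V} (hx : x ∈ A) :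
    ((A.powersetCard n).filter fun S => x ∈ S).card = (A.card - 1).choose (n - 1) := by
  rw [← card_erase_of_mem hx, ← card_powersetCard]
  symm
  refine card_bij (fun S _ => insert x S) ?_ ?_ ?_
  · intro S hS
    rw [mem_powersetCard] at hS
    have hxS : x ∉ S := fun h => (notMem_erase x A) (hS.1 h)
    rw [mem_filter, mem_powersetCard]
    refine ⟨⟨?_, ?_⟩, mem_insert_self _ _⟩
    · intro v hv
      rcases mem_insert.1 hv with rfl | hv
      · exact hx
      · exact mem_of_mem_erase (hS.1 hv)
    · rw [card_insert_of_notMem hxS, hS.2]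
      omega
  · intro S hS T hT h
    rw [mem_powersetCard] at hS hT
    have hxS : x ∉ S := fun h => (notMem_erase x A) (hS.1 h)
    have hxT : x ∉ T := fun h => (notMem_erase x A) (hT.1 h)
    rw [← erase_insert hxS, ← erase_insert hxT, h]
  · intro S hS
    rw [mem_filter, mem_powersetCard] at hS
    refine ⟨S.erase x, ?_, insert_erase hS.2⟩
    rw [mem_powersetCard]
    refine ⟨erase_subset_erase _ hS.1.1, ?_⟩
    rw [card_erase_of_mem hS.2, hS.1.2]

theorem star_count : StStar := by
  intro V _ _ G _ n hn x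
  classical
  let P : Finset (Σ _ : V, Finset V) :=
    (univ.sigma fun c => (G.neighborFinset c).powersetCard n).filter fun p => x = p.1 ∨ x ∈ p.2
  have hset : {H : G.Subgraph | x ∈ H.verts ∧ Nonempty (Pool.Agent.K4H49.IR.star n ≃g H.coe)}
      = (fun p : (Σ _ : V, Finset V) => starSub G p.1 p.2) '' (P : Set (Σ _ : V, Finset V)) := by
    ext H
    constructor
    · rintro ⟨hx, ⟨e⟩⟩
      obtain ⟨c, S, hS, rfl⟩ := exists_of_iso G e
      refine ⟨⟨c, S⟩, ?_, rfl⟩
      rw [mem_coe, mem_filter, mem_sigma]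
      exact ⟨⟨mem_univ _, hS⟩, hx⟩
    · rintro ⟨⟨c, S⟩, hp, rfl⟩
      rw [mem_coe, mem_filter, mem_sigma] at hp
      exact ⟨hp.2, iso_starSub G hp.1.2⟩
  have hinj : Set.InjOn (fun p : (Σ _ : V, Finset V) => starSub G p.1 p.2)
      (P : Set (Σ _ : V, Finset V)) := by
    rintro ⟨c, S⟩ hp ⟨c', S'⟩ hp' h
    rw [mem_coe, mem_filter, mem_sigma] at hp hp'
    obtain ⟨rfl, rfl⟩ := starSub_inj G hn hp.1.2 hp'.1.2 h
    rfl
  unfold fdeg
  rw [hset, Set.ncard_image_of_injOn hinj, Set.ncard_coe_finset]
  have hP : P.card = ∑ c : V, (((G.neighborFinset c).powersetCard n).filter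
      fun S => x = c ∨ x ∈ S).card := by
    rw [show P = univ.sigma fun c => ((G.neighborFinset c).powersetCard n).filter
      fun S => x = c ∨ x ∈ S from ?_, card_sigma]
    ext ⟨c, S⟩
    simp only [P, mem_filter, mem_sigma, mem_univ, true_and]
  rw [hP, ← add_sum_erase _ _ (mem_univ x), sn]
  congr 1
  · rw [filter_true_of_mem fun S _ => Or.inl rfl, card_powersetCard,
      SimpleGraph.card_neighborFinset_eq_degree]
  · have hsub : G.neighborFinset x ⊆ univ.erase x := by
      intro v hv
      rw [SimpleGraph.mem_neighborFinset] at hv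
      exact mem_erase.2 ⟨hv.ne', mem_univ _⟩
    rw [← sum_subset hsub]
    · refine sum_congr rfl fun y hy => ?_
      rw [SimpleGraph.mem_neighborFinset] at hy
      have hne : x ≠ y := hy.ne
      rw [← SimpleGraph.card_neighborFinset_eq_degree,
        ← card_filter_mem (by omega : 1 ≤ n) (G.neighborFinset y)
          (show x ∈ G.neighborFinset y by rw [SimpleGraph.mem_neighborFinset]; exact hy.symm)]
      congr 1
      ext S
      simp [hne]
    · intro y hy hy'
      rw [card_eq_zero, filter_eq_empty_iff]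
      intro S hS h
      rw [mem_powersetCard] at hS
      have hne := (mem_erase.1 hy).1
      rcases h with h | h
      · exact hne h.symm
      · apply hy'
        have := hS.1 h
        rw [SimpleGraph.mem_neighborFinset] at this ⊢
        exact this.symm

end Pool.Agent.K4H47.IR
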